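import Pool.Agent.helper6.DO.Defs
import Pool.Agent.helper6.DO.BNot

/-!
# Quotients of algebras with the dense orbit property

We show that a quotient of an algebra with the dense orbit property (DO) need not be DO.

The example: let `Q` be the quiver with vertices `0, 1, 2, 3`, arrows `α : 1 → 0`, `β : 1 → 2`,
`γ : 3 → 2` and loops `x` at `1` and `y` at `2`. The algebra `A` is the quotient of `KQ` by the
relations `x² = 0`, `y² = 0`, `αx = 0`, `yγ = 0`, `βx = yβ` (it has dimension 10 and radical cube
zero), and the quotient `A / (yβ)` is the path algebra modulo all paths of length two.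
-/

universe u

open Pool.Agent.helper6.DOrb

/-- Over every algebraically closed field there are a finite quiver and admissible ideals `R ≤ R'`
of its path algebra such that `KQ/R` is DO and its quotient `KQ/R'` is not. -/
theorem Pool.Agent.Results.MP_4dd85c_al.QuotientNotDO.result
    (K : Type u) [Field K] [IsAlgClosed K] :
    ∃ (V : Type) (_ : Fintype V) (_ : Quiver.{0} V) (_ : ∀ i j : V, Fintype (i ⟶ j))
      (R R' : PathIdeal K V),
      R.Admissible ∧ R'.Admissible ∧ R.Le R' ∧ IsDO R ∧ ¬ IsDO R' := by
  have : Infinite K := IsAlgClosed.instInfinite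
  exact ⟨Vtx, instFintypeVtx, instQuiverVtx, fun i j => Fintype.ofFinite _, idA K, idB K,
    idA_admissible, idB_admissible, idA_le_idB, idA_isDO K, idB_not_isDO K⟩
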